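import Mathlib
import Pool.Agent.Q28.UM.Main

/-!
Every unimodular equation over a metabelian group has a solution in a solvable group
containing it.
-/

set_option autoImplicit false

namespace Pool.Agent.Results.MP_82f054_al.MetabelianGroups

universe u

/-- (1) Let `G` be a metabelian group and let `w` be a word in the free product of `G` with the
free group on one letter `x` (of any length) whose exponent sum in `x` is `1` or `-1`.  Then
there are a solvable group `H` containing `G` and an element `h` of `H` with `w(h) = 1`.
(2) More generally let `A` be an abelian normal subgroup of a group `G` containing a term of the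
derived series of `G`, and let `ι : K → G` be a homomorphism from any group `K` such that the
elements of `ι(K)` commute modulo `A`.  Then every word with coefficients in `K` and exponent sum
`1` or `-1`, read over `G` by means of `ι`, has a root in a solvable group containing `G`. -/
theorem result :
    (∀ (G : Type u) [Group G], derivedSeries G 2 = ⊥ →
      ∀ w : Monoid.Coprod G (FreeGroup Unit),
        (Monoid.Coprod.lift (1 : G →* Multiplicative ℤ)
            (FreeGroup.lift (fun _ => Multiplicative.ofAdd (1 : ℤ))) w
              = Multiplicative.ofAdd (1 : ℤ) ∨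
          Monoid.Coprod.lift (1 : G →* Multiplicative ℤ)
            (FreeGroup.lift (fun _ => Multiplicative.ofAdd (1 : ℤ))) w
              = Multiplicative.ofAdd (-1 : ℤ)) →
        ∃ (H : Type u) (_ : Group H), Group.IsSolvable H ∧
          ∃ φ : G →* H, Function.Injective φ ∧
            ∃ h : H, Monoid.Coprod.lift φ (FreeGroup.lift (fun _ => h)) w = 1) ∧
    (∀ (G : Type u) [Group G] (A : Subgroup G) [A.Normal] (n : ℕ), derivedSeries G n ≤ A →
      (∀ a ∈ A, ∀ b ∈ A, a * b = b * a) →
      ∀ (K : Type u) [Group K] (ι : K →* G), (∀ a b : K, ι (a * b * a⁻¹ * b⁻¹) ∈ A) →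
      ∀ w : Monoid.Coprod K (FreeGroup Unit),
        (Monoid.Coprod.lift (1 : K →* Multiplicative ℤ)
            (FreeGroup.lift (fun _ => Multiplicative.ofAdd (1 : ℤ))) w
              = Multiplicative.ofAdd (1 : ℤ) ∨
          Monoid.Coprod.lift (1 : K →* Multiplicative ℤ)
            (FreeGroup.lift (fun _ => Multiplicative.ofAdd (1 : ℤ))) w
              = Multiplicative.ofAdd (-1 : ℤ)) →
        ∃ (H : Type u) (_ : Group H), Group.IsSolvable H ∧
          ∃ φ : G →* H, Function.Injective φ ∧
            ∃ h : H, Monoid.Coprod.lift (φ.comp ι) (FreeGroup.lift (fun _ => h)) w = 1) := by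
  refine ⟨?_, ?_⟩
  · intro G _ hG w hw
    have h2 : ∀ a ∈ derivedSeries G 1, ∀ b ∈ derivedSeries G 1, a * b = b * a := by
      intro a ha b hb
      have : a * b * a⁻¹ * b⁻¹ ∈ derivedSeries G 2 := by
        rw [derivedSeries_succ]
        exact Subgroup.commutator_mem_commutator ha hb
      rw [hG, Subgroup.mem_bot, mul_inv_eq_one, mul_inv_eq_iff_eq_mul] at this
      exact this
    obtain ⟨H, _, hH, φ, hφ, h, hh⟩ := Q28.UM.main (derivedSeries G 1) 1 le_rfl h2
      (MonoidHom.id G) (by
        intro a b
        rw [MonoidHom.id_apply, derivedSeries_one]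
        exact Subgroup.commutator_mem_commutator (Subgroup.mem_top a) (Subgroup.mem_top b)) w hw
    exact ⟨H, inferInstance, hH, φ, hφ, h, hh⟩
  · intro G _ A _ n hn hA K _ ι hK w hw
    exact Q28.UM.main A n hn hA ι hK w hw

end Pool.Agent.Results.MP_82f054_al.MetabelianGroups
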